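import Mathlib

set_option autoImplicit false

namespace Pool.Agent.Results.MP_405999_gt.Holds

open Set

universe u

/-- filters: nonempty upper sets in which any two elements have a lower bound -/
def IsFil {L : Type u} [Order.Frame L] (F : Set L) : Prop :=
  F.Nonempty ∧ IsUpperSet F ∧ ∀ a ∈ F, ∀ b ∈ F, ∃ c ∈ F, c ≤ a ∧ c ≤ b

/-- Scott-open sets -/
def ScottOpen {L : Type u} [Order.Frame L] (U : Set L) : Prop :=
  IsUpperSet U ∧ ∀ D : Set L, D.Nonempty → DirectedOn (· ≤ ·) D → sSup D ∈ U → ∃ d ∈ D, d ∈ U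

/-- locally temperate frames -/
def LocTemperate (L : Type u) [Order.Frame L] : Prop :=
  ∀ F G : Set L, IsFil F → ScottOpen F → IsFil G → ScottOpen G →
    ScottOpen {w | ∃ u ∈ F, ∃ v ∈ G, w = u ⊓ v}

/-- the completely prime filters of `L` -/
def Pt (L : Type u) [Order.Frame L] : Type u :=
  {F : Set L // IsFil F ∧ ∀ S : Set L, sSup S ∈ F → ∃ s ∈ S, s ∈ F}

/-- the topology of the space of points -/
instance topPt (L : Type u) [Order.Frame L] : TopologicalSpace (Pt L) :=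
  TopologicalSpace.generateFrom {O | ∃ u : L, O = {x | u ∈ x.1}}

/-- locally strongly sober spaces -/
def LocStrSober (X : Type u) [TopologicalSpace X] : Prop :=
  ∀ 𝒰 : Ultrafilter X, {x | ∀ O, IsOpen O → x ∈ O → O ∈ 𝒰} = ∅ ∨
    ∃! x, {x | ∀ O, IsOpen O → x ∈ O → O ∈ 𝒰} = closure {x}

variable {L : Type u} [Order.Frame L]

theorem IsFil.inf {F : Set L} (h : IsFil F) {a b : L} (ha : a ∈ F) (hb : b ∈ F) : a ⊓ b ∈ F := by
  obtain ⟨c, hc, h1, h2⟩ := h.2.2 a ha b hb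
  exact h.2.1 (le_inf h1 h2) hc

theorem mk_fil {F : Set L} (h0 : F.Nonempty) (h1 : IsUpperSet F)
    (h2 : ∀ a ∈ F, ∀ b ∈ F, a ⊓ b ∈ F) : IsFil F :=
  ⟨h0, h1, fun a ha b hb => ⟨_, h2 a ha b hb, inf_le_left, inf_le_right⟩⟩

theorem le_nhds (x : Pt L) (G : Filter (Pt L)) :
    G ≤ nhds x ↔ ∀ u ∈ x.1, {y : Pt L | u ∈ y.1} ∈ G := by
  rw [TopologicalSpace.nhds_generateFrom]
  simp only [le_iInf_iff, Filter.le_principal_iff]
  exact ⟨fun h u hu => h _ ⟨hu, u, rfl⟩, by rintro h _ ⟨h1, u, rfl⟩; exact h u h1⟩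

theorem mem_cl (x y : Pt L) : x ∈ closure {y} ↔ x.1 ⊆ y.1 := by
  rw [← specializes_iff_mem_closure, specializes_iff_pure, le_nhds]
  rfl

theorem result (L : Type u) [Order.Frame L] (hL : LocTemperate L) : LocStrSober (Pt L) := by
  intro 𝒰
  have hlim : ∀ x : Pt L, (∀ O, IsOpen O → x ∈ O → O ∈ 𝒰) ↔
      x.1 ⊆ {u | {y : Pt L | u ∈ y.1} ∈ 𝒰} := fun x =>
    ⟨fun h u hu => h _ (TopologicalSpace.isOpen_generateFrom_of_mem ⟨u, rfl⟩) hu,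
      fun h O h1 h2 => (le_nhds x 𝒰).mpr h (h1.mem_nhds h2)⟩
  simp only [hlim]
  set Φ := {u | {y : Pt L | u ∈ y.1} ∈ 𝒰} with hΦ
  rcases eq_empty_or_nonempty {x : Pt L | x.1 ⊆ Φ} with h | ⟨x0, h0⟩
  · exact Or.inl h
  right
  have so : ∀ x : Pt L, ScottOpen x.1 := fun x => ⟨x.2.1.2.1, fun D _ _ h => x.2.2 D h⟩
  let F : Set L := {u | ∃ G, IsFil G ∧ ScottOpen G ∧ G ⊆ Φ ∧ u ∈ G}
  have ht : ∀ G : Set L, IsFil G → ⊤ ∈ G := fun G h => by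
    obtain ⟨a, ha⟩ := h.1
    exact h.2.1 le_top ha
  have f0 : ⊤ ∈ F := ⟨x0.1, x0.2.1, so x0, h0, ht _ x0.2.1⟩
  have f1 : IsUpperSet F := fun a b hab ⟨G, g1, g2, g3, g4⟩ => ⟨G, g1, g2, g3, g2.1 hab g4⟩
  have f2 : ∀ a ∈ F, ∀ b ∈ F, a ⊓ b ∈ F := by
    rintro a ⟨G, g1, g2, g3, g4⟩ b ⟨G', g1', g2', g3', g4'⟩
    have := hL G G' g1 g2 g1' g2'
    refine ⟨{w | ∃ u ∈ G, ∃ v ∈ G', w = u ⊓ v}, mk_fil ⟨_, a, g4, b, g4', rfl⟩ this.1 ?_, this, ?_,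
      a, g4, b, g4', rfl⟩
    · rintro _ ⟨u, hu, v, hv, rfl⟩ _ ⟨u', hu', v', hv', rfl⟩
      exact ⟨_, g1.inf hu hu', _, g1'.inf hv hv', inf_inf_inf_comm _ _ _ _⟩
    · rintro _ ⟨u, hu, v, hv, rfl⟩
      exact Filter.mem_of_superset (Filter.inter_mem (g3 hu) (g3' hv))
        fun y hy => y.2.1.inf hy.1 hy.2
  have f3 : ∀ D : Set L, D.Nonempty → DirectedOn (· ≤ ·) D → sSup D ∈ F → ∃ d ∈ D, d ∈ F := by
    rintro D d1 d2 ⟨G, g1, g2, g3, g4⟩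
    obtain ⟨d, hd, h⟩ := g2.2 D d1 d2 g4
    exact ⟨d, hd, G, g1, g2, g3, h⟩
  have h1 : sSup Φᶜ ∉ F := fun h => by
    obtain ⟨d, hd, G, _, _, g3, g4⟩ := f3 Φᶜ ⟨sSup ∅, fun h => by
        obtain ⟨y, hy⟩ := 𝒰.nonempty_of_mem h
        simpa using y.2.2 ∅ hy⟩ (fun a ha b hb => ⟨sSup {a, b}, fun h => by
        have : {y : Pt L | a ∈ y.1} ∪ {y : Pt L | b ∈ y.1} ∈ 𝒰 :=
          Filter.mem_of_superset h fun y hy => by simpa using y.2.2 _ hy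
        exact (Ultrafilter.union_mem_iff.mp this).elim ha hb,
        le_sSup (by simp), le_sSup (by simp)⟩) h
    exact hd (g3 g4)
  obtain ⟨p, hp1, hp⟩ := zorn_le_nonempty₀ Fᶜ (fun c hc hch y hy =>
    ⟨sSup c, fun h => by
      obtain ⟨d, hd, hd'⟩ := f3 c ⟨y, hy⟩ hch.directedOn h
      exact hc hd hd', fun z hz => le_sSup hz⟩) _ h1
  have k : ∀ a, ¬ a ≤ p → a ⊔ p ∈ F := fun a ha => by
    by_contra hn
    exact ha (le_sup_left.trans (hp.2 hn le_sup_right))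
  let z : Pt L := ⟨{u | ¬ u ≤ p}, mk_fil ⟨⊤, fun h => hp.1 (f1 h f0)⟩
    (fun a b hab ha hb => ha (hab.trans hb)) (fun a ha b hb hab => hp.1 (f1 (by
      rw [← sup_inf_right]
      exact sup_le hab le_rfl) (f2 _ (k a ha) _ (k b hb)))), fun S hS => by
    by_contra hn
    push Not at hn
    exact hS (sSup_le fun s hs => not_not.mp (hn s hs))⟩
  have hz : {x : Pt L | x.1 ⊆ Φ} = closure {z} := by
    ext x
    rw [mem_cl]
    refine ⟨fun h u hu hup => hp.1 (f1 hup ⟨x.1, x.2.1, so x, h, hu⟩), fun h u hu => ?_⟩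
    by_contra hn
    exact h hu ((le_sSup hn).trans hp1)
  refine ⟨z, hz, fun y hy => Subtype.ext (Subset.antisymm ((mem_cl _ _).mp ?_) ((mem_cl _ _).mp ?_))⟩
  · rw [← hz, hy]; exact subset_closure rfl
  · rw [← hy, hz]; exact subset_closure rfl

end Pool.Agent.Results.MP_405999_gt.Holds
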